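import Pool.Agent.helper56.P2B.SpecD
import Pool.Agent.helper1.P2.PGR

/-!
# Project p2b: (MP_70a088_an), module RAF (helper74): the limit of returns is real affine
-/

set_option autoImplicit false

open Complex Metric Set Filter Topology MeasureTheory
open Pool.Agent.helper98.ILF
open WP (it)
open HY (UD T S hd UN RM)
open PM
open PL (TP LO PZ GJ INR PG DK ht tr DI CY SUBH hG hq BJ)
open P2 (SS FLS FL CLS FR TL)

noncomputable section

namespace P2B

theorem RAF (hRRG : P2.RRG_stmt) (hTMO : V3.TMO_stmt) (hVCF : VCF_stmt) (hTDF : TDF_stmt) : RAF_stmt := by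
  intro f R hS μ x₀ hTP x hx U hU n t m r e g hr he hFL hret
  have hER : ER f R := ⟨hS.R1, hS.esc⟩
  have hst : ∀ j k, (x j) ∈ VK f R k := fun j k => hS.Jv (x j) (hx j) k
  have hW : ∀ j k, DD (VC f R k (x j)) ∧ 0 < cr (VC f R k (x j)) (x j) := fun j k => by
    have h1 := hVCF f R hS.deg hER k (x j) (hst j k)
    exact ⟨h1.1, ((hTDF _ h1.1).2.2 (x j) h1.2.1).2.1⟩
  obtain ⟨g₀, hg₀d, hg₀⟩ := hTMO U g (ball 0 r) isOpen_ball (by
    intro y hy
    refine ⟨r - ‖y‖, ?_, r + e, ?_⟩
    · rw [mem_ball_zero_iff] at hy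
      linarith
    · have hsub : ball y (r - ‖y‖) ⊆ ball (0 : ℂ) r := by
        apply ball_subset_ball'
        rw [dist_zero_right]
        linarith
      filter_upwards [hret] with j hj
      refine ⟨hj.dif.mono hsub, fun z hz => ?_⟩
      have h1 := hj.near z (hsub hz)
      have h2 := hsub hz
      rw [mem_ball_zero_iff] at h2
      have h3 : ‖g j z‖ ≤ ‖g j z - z‖ + ‖z‖ := by
        simpa using norm_add_le (g j z - z) z
      linarith)
  have hreal : ∀ ζ ∈ ball (0 : ℂ) r, (deriv g₀ ζ).im = 0 := by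
    refine hRRG f μ x₀ hS.deg hTP U (fun j => cr (VC f R (n j + t j) (x j)) (x j)) (fun j => cr (VC f R (n j + t j) (x j)) (x j)) x x
      (fun j => t j + m j) t (ball 0 r) g g₀ isOpen_ball ?_ hFL hFL ?_ hg₀ ?_
    · exact Eventually.of_forall fun j => ⟨(hW j _).2, (hW j _).2⟩
    · filter_upwards [hret] with j hj using hj.dif
    · filter_upwards [hret] with j hj ζ hζ using hj.rel ζ hζ
  obtain ⟨a, b, hab⟩ := P2.PGR_aff g₀ 0 r hr hg₀d hreal
  have hnear : ∀ ζ ∈ ball (0 : ℂ) r, ‖(a : ℂ) * ζ + b - ζ‖ ≤ e := by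
    intro ζ hζ
    rw [← hab ζ hζ]
    have h1 : Tendsto (fun j => g j ζ) U (𝓝 (g₀ ζ)) := hg₀.tendsto_at hζ
    refine le_of_tendsto (h1.sub_const ζ).norm ?_
    filter_upwards [hret] with j hj using hj.near ζ hζ
  have hb : ‖b‖ ≤ e := by
    have := hnear 0 (mem_ball_self hr)
    simpa using this
  have ha : ∀ s : ℝ, 0 ≤ s → s < r → |a - 1| * s ≤ 2 * e := by
    intro s hs hsr
    have h1 := hnear (s : ℂ) (by rw [mem_ball_zero_iff, norm_real, Real.norm_of_nonneg hs]; exact hsr)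
    have h2 : ((a : ℂ) - 1) * (s : ℂ) = ((a : ℂ) * s + b - s) - b := by ring
    have h3 : ‖((a : ℂ) - 1) * (s : ℂ)‖ ≤ e + e := by
      rw [h2]
      exact (norm_sub_le _ _).trans (add_le_add h1 hb)
    have h4 : ‖((a : ℂ) - 1) * (s : ℂ)‖ = |a - 1| * s := by
      rw [norm_mul, norm_real, Real.norm_of_nonneg hs, ← ofReal_one, ← ofReal_sub, norm_real, Real.norm_eq_abs]
    linarith
  refine ⟨a, b, ?_, hb, ?_⟩
  · rw [le_div_iff₀ hr]
    by_contra hcon
    rw [not_le] at hcon
    have hapos : 0 < |a - 1| := by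
      by_contra h
      have h0 : |a - 1| = 0 := le_antisymm (not_lt.1 h) (abs_nonneg _)
      rw [h0, zero_mul] at hcon
      linarith
    have h1 : 2 * e / |a - 1| < r := by
      rw [div_lt_iff₀ hapos]
      linarith
    have h0 : 0 ≤ 2 * e / |a - 1| := by positivity
    have h2 := ha ((r + 2 * e / |a - 1|) / 2) (by linarith) (by linarith)
    have h3 : |a - 1| * ((r + 2 * e / |a - 1|) / 2) = (|a - 1| * r + 2 * e) / 2 := by
      field_simp
    rw [h3] at h2
    linarith
  · exact hg₀.congr_right hab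

end P2B

end
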